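import Pool.Agent.U475.EA.F.Spec

/-!
# Gibbs states of a general nearest-neighbour energy: existence, and uniqueness from loss of memory
-/

set_option autoImplicit false

open MeasureTheory Filter Topology
open scoped ENNReal BoundedContinuousFunction

namespace Pool.Agent.U475.EA

open Pool.H47EA

variable {d : ℕ} {E : Finset (Site d) → (Site d → Bool) → ℝ}

theorem meas_gA (hE : Nice E) (Λ : Finset (Site d))
    (f : (Site d → Bool) → ℝ) (hf : Measurable f) :
    Measurable (fun ω : Site d → Bool => gA E Λ ω f) := by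
  unfold gA ZA
  have h1 : ∀ η : Λ → Bool, Measurable fun ω : Site d → Bool =>
      Real.exp (E Λ (glue Λ η ω)) := fun η =>
    Real.measurable_exp.comp ((hE.cont Λ).measurable.comp (meas_glue Λ η))
  apply Measurable.div
  · exact Finset.measurable_sum _ fun η _ => (h1 η).mul (hf.comp (meas_glue Λ η))
  · exact Finset.measurable_sum _ fun η _ => h1 η

/-- loss of memory -/
def ForgetA (E : Finset (Site d) → (Site d → Bool) → ℝ) : Prop :=
  ∀ (A : Finset (Site d)) (δ : ℝ), 0 < δ → ∃ Λ₀ : Finset (Site d), ∀ Λ : Finset (Site d),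
    Λ₀ ⊆ Λ → ∀ f, Unit01 f → LocalOn A f → ∀ ω ω' : Site d → Bool,
      |gA E Λ ω f - gA E Λ ω' f| ≤ δ

theorem gibbsU (hE : Nice E) (hF : ForgetA E) (π π' : Measure (Site d → Bool))
    (hπ : IsGibbsA E π) (hπ' : IsGibbsA E π') : π = π' := by
  have := hπ.1
  have := hπ'.1
  refine MeasureTheory.ext_of_generate_finite (measurableCylinders fun _ : Site d => Bool)
    generateFrom_measurableCylinders.symm isPiSystem_measurableCylinders ?_ (by simp)
  intro C hC
  obtain ⟨s, S, hS, rfl⟩ := (mem_measurableCylinders C).1 hC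
  set C : Set (Site d → Bool) := cylinder (α := fun _ : Site d => Bool) s S with hCdef
  have hCm : MeasurableSet C := MeasurableSet.cylinder s hS
  set f : (Site d → Bool) → ℝ := C.indicator fun _ => (1 : ℝ) with hf
  have hfm : Measurable f := measurable_const.indicator hCm
  have hf01 : Unit01 f := by
    intro σ
    by_cases h : σ ∈ C <;> simp [hf, h]
  have hfl : LocalOn s f := by
    intro σ σ' h
    have : σ ∈ C ↔ σ' ∈ C := by
      rw [hCdef, mem_cylinder, mem_cylinder]
      have : s.restrict σ = s.restrict σ' := by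
        funext x; exact h x.1 x.2
      rw [this]
    by_cases h1 : σ ∈ C
    · simp [hf, h1, this.1 h1]
    · have h2 : σ' ∉ C := fun h => h1 (this.2 h)
      simp [hf, h1, h2]
  -- comparison of one Gibbs state with a fixed boundary condition
  have key : ∀ (ρ : Measure (Site d → Bool)), IsGibbsA E ρ → ∀ (a b : Site d) (δ : ℝ),
      0 < δ → (∀ ω ω' : Site d → Bool,
        |gA E (Finset.Icc a b) ω f - gA E (Finset.Icc a b) ω' f| ≤ δ) →
      |(ρ C).toReal - gA E (Finset.Icc a b) (fun _ => true) f| ≤ δ := by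
    intro ρ hρ a b δ hδ hb
    have := hρ.1
    rw [hρ.2 a b C hCm]
    have hint : Integrable (fun ω => gA E (Finset.Icc a b) ω f) ρ := by
      refine Integrable.of_bound (meas_gA hE _ f hfm).aestronglyMeasurable 1 ?_
      refine Filter.Eventually.of_forall fun ω => ?_
      have := gA_unit (E := E) (Finset.Icc a b) ω f hf01
      rw [Real.norm_eq_abs, abs_of_nonneg this.1]
      exact this.2
    have e : (∫ ω, gA E (Finset.Icc a b) ω f ∂ρ) - gA E (Finset.Icc a b) (fun _ => true) f
        = ∫ ω, (gA E (Finset.Icc a b) ω f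
            - gA E (Finset.Icc a b) (fun _ => true) f) ∂ρ := by
      rw [integral_sub hint (integrable_const _)]
      simp
    rw [e]
    have := norm_integral_le_of_norm_le_const (μ := ρ)
      (f := fun ω => gA E (Finset.Icc a b) ω f - gA E (Finset.Icc a b) (fun _ => true) f)
      (C := δ) (Filter.Eventually.of_forall fun ω => by
        rw [Real.norm_eq_abs]; exact hb ω _)
    simpa using this
  have hfin : ∀ δ : ℝ, 0 < δ → |(π C).toReal - (π' C).toReal| ≤ 2 * δ := by
    intro δ hδ
    obtain ⟨Λ₀, hΛ⟩ := hF s δ hδ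
    obtain ⟨b, hb⟩ := Λ₀.bddAbove
    obtain ⟨a, ha⟩ := Λ₀.bddBelow
    have hsub : Λ₀ ⊆ Finset.Icc a b := by
      intro x hx
      rw [Finset.mem_Icc]
      exact ⟨ha hx, hb hx⟩
    have hh := hΛ (Finset.Icc a b) hsub f hf01 hfl
    have h1 := key π hπ a b δ hδ hh
    have h2 := key π' hπ' a b δ hδ hh
    rw [abs_le] at h1 h2 ⊢
    constructor <;> linarith [h1.1, h1.2, h2.1, h2.2]
  have heq : (π C).toReal = (π' C).toReal := by
    by_contra hne
    have hpos : 0 < |(π C).toReal - (π' C).toReal| := abs_pos.2 (sub_ne_zero.2 hne)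
    have := hfin (|(π C).toReal - (π' C).toReal| / 4) (by positivity)
    linarith
  exact (ENNReal.toReal_eq_toReal_iff' (measure_ne_top _ _) (measure_ne_top _ _)).1 heq

theorem continuous_wexpA (hE : Nice E) (Λ : Finset (Site d)) (η : Λ → Bool) :
    Continuous (fun ω : Site d → Bool => Real.exp (E Λ (glue Λ η ω))) :=
  Real.continuous_exp.comp ((hE.cont Λ).comp (GIBBSE.continuous_glue Λ η))

theorem continuous_ZA (hE : Nice E) (Λ : Finset (Site d)) :
    Continuous (fun ω : Site d → Bool => ZA E Λ ω) := by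
  unfold ZA
  exact continuous_finsetSum _ fun η _ => continuous_wexpA hE Λ η

/-- normalised weights -/
noncomputable def wA (E : Finset (Site d) → (Site d → Bool) → ℝ) (Λ : Finset (Site d)) (η : Λ → Bool)
    (ω : Site d → Bool) : ℝ := Real.exp (E Λ (glue Λ η ω)) / ZA E Λ ω

theorem continuous_wA (hE : Nice E) (Λ : Finset (Site d)) (η : Λ → Bool) :
    Continuous (wA E Λ η) :=
  (continuous_wexpA hE Λ η).div (continuous_ZA hE Λ) fun ω => (ZA_pos Λ ω).ne'

theorem wA_nonneg (Λ : Finset (Site d)) (η : Λ → Bool)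
    (ω : Site d → Bool) : 0 ≤ wA E Λ η ω :=
  div_nonneg (Real.exp_pos _).le (ZA_pos Λ ω).le

theorem wA_sum (Λ : Finset (Site d)) (ω : Site d → Bool) :
    ∑ η, wA E Λ η ω = 1 := by
  unfold wA
  rw [← Finset.sum_div]
  exact div_self (ZA_pos Λ ω).ne'

theorem wA_le_one (Λ : Finset (Site d)) (η : Λ → Bool)
    (ω : Site d → Bool) : wA E Λ η ω ≤ 1 := by
  rw [← wA_sum (E := E) Λ ω]
  exact Finset.single_le_sum (fun η _ => wA_nonneg (E := E) Λ η ω) (Finset.mem_univ η)

theorem gA_eq (Λ : Finset (Site d)) (ω : Site d → Bool)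
    (f : (Site d → Bool) → ℝ) :
    gA E Λ ω f = ∑ η, wA E Λ η ω * f (glue Λ η ω) := by
  unfold gA wA
  rw [Finset.sum_div]
  exact Finset.sum_congr rfl fun η _ => by ring

theorem continuous_gA (hE : Nice E) (Λ : Finset (Site d))
    (f : (Site d → Bool) → ℝ) (hf : Continuous f) :
    Continuous (fun ω => gA E Λ ω f) := by
  simp only [gA_eq]
  exact continuous_finsetSum _ fun η _ =>
    (continuous_wA hE Λ η).mul (hf.comp (GIBBSE.continuous_glue Λ η))

/-- the Gibbs kernel applied to a measure -/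
noncomputable def KA (E : Finset (Site d) → (Site d → Bool) → ℝ) (Λ : Finset (Site d))
    (π : Measure (Site d → Bool)) : Measure (Site d → Bool) :=
  ∑ η : Λ → Bool, (π.withDensity fun ω => ENNReal.ofReal (wA E Λ η ω)).map (glue Λ η)

theorem integral_KA (hE : Nice E) (Λ : Finset (Site d))
    (π : Measure (Site d → Bool)) [IsProbabilityMeasure π]
    (f : (Site d → Bool) → ℝ) (hf : Measurable f) (C : ℝ) (hC : ∀ x, |f x| ≤ C) :
    ∫ ω, f ω ∂(KA E Λ π) = ∫ ω, gA E Λ ω f ∂π := by
  have hg : ∀ η : Λ → Bool, Measurable (glue Λ η) := fun η => (GIBBSE.continuous_glue Λ η).measurable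
  have hw : ∀ η : Λ → Bool, Measurable (fun ω => ENNReal.ofReal (wA E Λ η ω)) :=
    fun η => (continuous_wA hE Λ η).measurable.ennreal_ofReal
  have hfin : ∀ η : Λ → Bool,
      IsFiniteMeasure (π.withDensity fun ω => ENNReal.ofReal (wA E Λ η ω)) := by
    intro η
    apply isFiniteMeasure_withDensity
    have : ∫⁻ ω, ENNReal.ofReal (wA E Λ η ω) ∂π ≤ ∫⁻ _, 1 ∂π := by
      apply lintegral_mono
      intro ω
      calc ENNReal.ofReal (wA E Λ η ω) ≤ ENNReal.ofReal 1 :=
            ENNReal.ofReal_le_ofReal (wA_le_one (E := E) Λ η ω)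
        _ = 1 := ENNReal.ofReal_one
    refine ne_top_of_le_ne_top ?_ this
    simp
  have hint : ∀ η : Λ → Bool,
      Integrable f ((π.withDensity fun ω => ENNReal.ofReal (wA E Λ η ω)).map (glue Λ η)) := by
    intro η
    have := hfin η
    have h2 : IsFiniteMeasure
        ((π.withDensity fun ω => ENNReal.ofReal (wA E Λ η ω)).map (glue Λ η)) :=
      Measure.isFiniteMeasure_map _ _
    exact Integrable.of_bound hf.aestronglyMeasurable C (ae_of_all _ hC)
  unfold KA
  rw [integral_finsetSum_measure fun η _ => hint η]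
  have h1 : ∀ η : Λ → Bool,
      ∫ ω, f ω ∂((π.withDensity fun ω => ENNReal.ofReal (wA E Λ η ω)).map (glue Λ η)) =
        ∫ ω, wA E Λ η ω * f (glue Λ η ω) ∂π := by
    intro η
    rw [integral_map (hg η).aemeasurable hf.aestronglyMeasurable,
      integral_withDensity_eq_integral_toReal_smul (hw η) (ae_of_all _ fun ω => ENNReal.ofReal_lt_top)]
    refine integral_congr_ae (ae_of_all _ fun ω => ?_)
    simp only [smul_eq_mul]
    rw [ENNReal.toReal_ofReal (wA_nonneg (E := E) Λ η ω)]
  rw [Finset.sum_congr rfl fun η _ => h1 η, ← integral_finsetSum]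
  · exact integral_congr_ae (ae_of_all _ fun ω => (gA_eq (E := E) Λ ω f).symm)
  · intro η _
    refine Integrable.of_bound ?_ C (ae_of_all _ fun ω => ?_)
    · exact ((continuous_wA hE Λ η).measurable.mul (hf.comp (hg η))).aestronglyMeasurable
    · rw [Real.norm_eq_abs, abs_mul, abs_of_nonneg (wA_nonneg (E := E) Λ η ω)]
      calc wA E Λ η ω * |f (glue Λ η ω)| ≤ 1 * |f (glue Λ η ω)| :=
            mul_le_mul_of_nonneg_right (wA_le_one (E := E) Λ η ω) (abs_nonneg _)
        _ ≤ C := by rw [one_mul]; exact hC _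

theorem prob_KA (hE : Nice E) (Λ : Finset (Site d))
    (π : Measure (Site d → Bool)) [IsProbabilityMeasure π] :
    IsProbabilityMeasure (KA E Λ π) := by
  constructor
  have hg : ∀ η : Λ → Bool, Measurable (glue Λ η) := fun η => (GIBBSE.continuous_glue Λ η).measurable
  unfold KA
  rw [Measure.finsetSum_apply]
  have h1 : ∀ η : Λ → Bool,
      ((π.withDensity fun ω => ENNReal.ofReal (wA E Λ η ω)).map (glue Λ η)) Set.univ =
        ∫⁻ ω, ENNReal.ofReal (wA E Λ η ω) ∂π := by
    intro η
    rw [Measure.map_apply (hg η) MeasurableSet.univ, Set.preimage_univ,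
      withDensity_apply _ MeasurableSet.univ, Measure.restrict_univ]
  rw [Finset.sum_congr rfl fun η _ => h1 η, ← lintegral_finsetSum]
  · have h2 : ∀ ω, ∑ η, ENNReal.ofReal (wA E Λ η ω) = 1 := by
      intro ω
      rw [← ENNReal.ofReal_sum_of_nonneg fun η _ => wA_nonneg (E := E) Λ η ω, wA_sum,
        ENNReal.ofReal_one]
    simp only [h2]
    simp
  · intro η _
    exact (continuous_wA hE Λ η).measurable.ennreal_ofReal

theorem integral_KA_dirac (hE : Nice E) (Λ : Finset (Site d)) (ω₀ : Site d → Bool)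
    (f : (Site d → Bool) → ℝ) (hf : Measurable f) (C : ℝ) (hC : ∀ x, |f x| ≤ C) :
    ∫ ω, f ω ∂(KA E Λ (Measure.dirac ω₀)) = gA E Λ ω₀ f := by
  rw [integral_KA hE Λ _ f hf C hC, integral_dirac]

theorem gibbsE (hE : Nice E) : ∃ π : Measure (Site d → Bool), IsGibbsA E π := by
  let ω₀ : Site d → Bool := fun _ => true
  let P : Finset (Site d) → ProbabilityMeasure (Site d → Bool) := fun Λ =>
    ⟨KA E Λ (Measure.dirac ω₀), prob_KA hE Λ _⟩
  let U : Ultrafilter (Finset (Site d)) := Ultrafilter.of atTop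
  have hU : (U : Filter (Finset (Site d))) ≤ atTop := Ultrafilter.of_le _
  obtain ⟨π, -, hπ⟩ := (isCompact_univ (X := ProbabilityMeasure (Site d → Bool))).ultrafilter_le_nhds
    (U.map P) (by simp)
  have hlim : Tendsto P U (𝓝 π) := hπ
  have hconv : ∀ f : (Site d → Bool) → ℝ, Continuous f →
      Tendsto (fun Λ => gA E Λ ω₀ f) U (𝓝 (∫ ω, f ω ∂(π : Measure (Site d → Bool)))) := by
    intro f hf
    let F : (Site d → Bool) →ᵇ ℝ := BoundedContinuousFunction.mkOfCompact ⟨f, hf⟩
    have h1 := (ProbabilityMeasure.tendsto_iff_forall_integral_tendsto.mp hlim) F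
    refine h1.congr fun Λ => ?_
    exact integral_KA_dirac hE Λ ω₀ f hf.measurable ‖F‖ fun x => F.norm_coe_le_norm x
  -- invariance
  have hinv : ∀ (Λ : Finset (Site d)) (f : (Site d → Bool) → ℝ), Continuous f →
      ∫ ω, gA E Λ ω f ∂(π : Measure (Site d → Bool)) =
        ∫ ω, f ω ∂(π : Measure (Site d → Bool)) := by
    intro Λ f hf
    have h1 := hconv f hf
    have h2 := hconv (fun ω => gA E Λ ω f) (continuous_gA hE Λ f hf)
    refine tendsto_nhds_unique h2 (h1.congr' ?_)
    have h3 : ∀ᶠ Λ' in (U : Filter (Finset (Site d))), Λ ⊆ Λ' := hU (eventually_ge_atTop Λ)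
    filter_upwards [h3] with Λ' hΛ
    exact gA_cons hE hΛ ω₀ f
  have hK : ∀ Λ : Finset (Site d), KA E Λ (π : Measure (Site d → Bool)) =
      (π : Measure (Site d → Bool)) := by
    intro Λ
    have := prob_KA hE Λ (π : Measure (Site d → Bool))
    haveI : TopologicalSpace.MetrizableSpace (Site d → Bool) :=
      TopologicalSpace.metrizableSpace_of_t3_secondCountable _
    letI : MetricSpace (Site d → Bool) := TopologicalSpace.metrizableSpaceMetric _
    apply ext_of_forall_integral_eq_of_IsFiniteMeasure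
    intro f
    rw [integral_KA hE Λ _ f f.continuous.measurable ‖f‖ fun x => f.norm_coe_le_norm x]
    exact hinv Λ f f.continuous
  refine ⟨π, inferInstance, ?_⟩
  intro a b A hA
  have hind : Measurable (A.indicator fun _ => (1 : ℝ)) := measurable_const.indicator hA
  have h1 := integral_KA hE (Finset.Icc a b) (π : Measure (Site d → Bool))
    (A.indicator fun _ => (1 : ℝ)) hind 1 (by
      intro x
      by_cases hx : x ∈ A
      · simp [hx]
      · simp [hx])
  rw [← h1, hK, integral_indicator hA]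
  simp [Measure.real]

end Pool.Agent.U475.EA
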