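import Pool.Agent.U475.EA.F.Expl
import Pool.Agent.U475.EA.F.Gibbs

/-!
# Gibbs states with frozen spins

The spins of an arbitrary set `V` of sites are frozen to the values `τ`; `V = ∅` is the model
without frozen spins.
-/

set_option autoImplicit false

open MeasureTheory Filter Topology
open scoped ENNReal BoundedContinuousFunction

namespace Pool.Agent.U475.EA

open Pool.H47EA Pool.H47EA.ExplAux

variable {d : ℕ} {E : Finset (Site d) → (Site d → Bool) → ℝ}

open Classical in
/-- the sites of `Λ` which are not frozen -/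
noncomputable def free (V : Set (Site d)) (Λ : Finset (Site d)) : Finset (Site d) :=
  Λ.filter fun x => x ∉ V

theorem mem_free {V : Set (Site d)} {Λ : Finset (Site d)} {x : Site d} :
    x ∈ free V Λ ↔ x ∈ Λ ∧ x ∉ V := by
  classical
  unfold free
  rw [Finset.mem_filter]

/-- Gibbs states with the spins in `V` frozen to `τ`: the DLR equations for all boxes -/
def IsGibbsV (E : Finset (Site d) → (Site d → Bool) → ℝ) (V : Set (Site d)) (τ : Site d → Bool)
    (π : Measure (Site d → Bool)) : Prop :=
  IsProbabilityMeasure π ∧ (∀ᵐ σ ∂π, ∀ x ∈ V, σ x = τ x) ∧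
    ∀ (a b : Site d) (A : Set (Site d → Bool)), MeasurableSet A →
      (π A).toReal = ∫ ω, gA E (free V (Finset.Icc a b)) ω (A.indicator fun _ => (1 : ℝ)) ∂π

/-- loss of memory -/
def ForgetV (E : Finset (Site d) → (Site d → Bool) → ℝ) (V : Set (Site d)) (τ : Site d → Bool) :
    Prop :=
  ∀ (A : Finset (Site d)) (δ : ℝ), 0 < δ → ∃ Λ₀ : Finset (Site d), ∀ Λ : Finset (Site d),
    Λ₀ ⊆ Λ → ∀ f, Unit01 f → LocalOn A f → ∀ ω ω' : Site d → Bool,
      (∀ x ∈ V, ω x = τ x) → (∀ x ∈ V, ω' x = τ x) →
      |gA E (free V Λ) ω f - gA E (free V Λ) ω' f| ≤ δ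

/-- the exploration inequality -/
theorem explV (hE : Nice E) (V : Set (Site d)) (R R' : ℕ) (hR : R ≤ R') (p : Site d → ℝ)
    (hp : ∀ (x : Site d) (Λ : Finset (Site d)), x ∈ Λ → ∀ ω ω' : Site d → Bool,
      (∀ y ∈ ball x R, y ∉ Λ → ω y = ω' y) →
      |gA E Λ ω (ind x) - gA E Λ ω' (ind x)| ≤ p x)
    (A : Finset (Site d)) (f : (Site d → Bool) → ℝ) (hf : Unit01 f) (hfA : LocalOn A f)
    (Λ : Finset (Site d)) (n : ℕ) (hA : ∀ a ∈ A, ∀ y, y ∉ Λ → (n + 1) * (R' + 1) ≤ dist1 a y)
    (ω ω' : Site d → Bool) (hV : ∀ x ∈ V, ω x = ω' x) :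
    ENNReal.ofReal |gA E (free V Λ) ω f - gA E (free V Λ) ω' f| ≤
      chSum R' A (fun x => ENNReal.ofReal (p x)) n := by
  classical
  have h1 := claimA hE R R' hR p hp A f hf hfA (free V Λ).card (free V Λ) rfl {y | y ∉ Λ}
    (fun y hy hy' => hy (mem_free.1 hy').1)
    (fun a ha y hy => by
      have := hA a ha y hy
      nlinarith [Nat.zero_le n, Nat.zero_le R']) ω ω'
    (fun y h1 h2 => by
      have hyΛ : y ∈ Λ := not_not.1 h1
      have hyV : y ∈ V := by
        by_contra hcon
        exact h2 (mem_free.2 ⟨hyΛ, hcon⟩)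
      exact hV y hyV)
  refine h1.trans ?_
  unfold S chSum
  refine ENNReal.tsum_le_tsum fun l => ?_
  by_cases hc : Cnt R' A (free V Λ) {y | y ∉ Λ} l
  · rw [if_pos hc]
    have h2 : IsCh R' A l ∧ n ≤ l.length := by
      refine ⟨hc.1, ?_⟩
      obtain ⟨h3, -, -, x0, hx0, y, hy, hxy⟩ := hc
      obtain ⟨a, ha, h4⟩ := chain_dist R' A l h3 x0 hx0
      have h5 := hA a ha y hy
      have h6 := ExplAux.dist_tri a x0 y
      have h7 : (n + 1) * (R' + 1) < (l.length + 1) * (R' + 1) := by
        have : (l.length + 1) * (R' + 1) = l.length * (R' + 1) + (R' + 1) := by ring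
        omega
      have h8 := Nat.lt_of_mul_lt_mul_right h7
      omega
    rw [if_pos h2]
  · rw [if_neg hc]
    exact zero_le

theorem gibbsVU (hE : Nice E) (V : Set (Site d)) (τ : Site d → Bool) (hF : ForgetV E V τ)
    (π π' : Measure (Site d → Bool)) (hπ : IsGibbsV E V τ π) (hπ' : IsGibbsV E V τ π') :
    π = π' := by
  have := hπ.1
  have := hπ'.1
  refine MeasureTheory.ext_of_generate_finite (measurableCylinders fun _ : Site d => Bool)
    generateFrom_measurableCylinders.symm isPiSystem_measurableCylinders ?_ (by simp)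
  intro C hC
  obtain ⟨s, S, hS, rfl⟩ := (mem_measurableCylinders C).1 hC
  set C : Set (Site d → Bool) := cylinder (α := fun _ : Site d => Bool) s S with hCdef
  have hCm : MeasurableSet C := MeasurableSet.cylinder s hS
  set f : (Site d → Bool) → ℝ := C.indicator fun _ => (1 : ℝ) with hf
  have hfm : Measurable f := measurable_const.indicator hCm
  have hf01 : Unit01 f := by
    intro σ
    by_cases h : σ ∈ C <;> simp [hf, h]
  have hfl : LocalOn s f := by
    intro σ σ' h
    have : σ ∈ C ↔ σ' ∈ C := by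
      rw [hCdef, mem_cylinder, mem_cylinder]
      have : s.restrict σ = s.restrict σ' := by
        funext x; exact h x.1 x.2
      rw [this]
    by_cases h1 : σ ∈ C
    · simp [hf, h1, this.1 h1]
    · have h2 : σ' ∉ C := fun h => h1 (this.2 h)
      simp [hf, h1, h2]
  -- comparison of one Gibbs state with a fixed boundary condition
  have key : ∀ (ρ : Measure (Site d → Bool)), IsGibbsV E V τ ρ → ∀ (a b : Site d) (δ : ℝ),
      0 < δ → (∀ ω ω' : Site d → Bool, (∀ x ∈ V, ω x = τ x) → (∀ x ∈ V, ω' x = τ x) →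
        |gA E (free V (Finset.Icc a b)) ω f - gA E (free V (Finset.Icc a b)) ω' f| ≤ δ) →
      |(ρ C).toReal - gA E (free V (Finset.Icc a b)) τ f| ≤ δ := by
    intro ρ hρ a b δ hδ hb
    have := hρ.1
    rw [hρ.2.2 a b C hCm]
    have hint : Integrable (fun ω => gA E (free V (Finset.Icc a b)) ω f) ρ := by
      refine Integrable.of_bound (meas_gA hE _ f hfm).aestronglyMeasurable 1 ?_
      refine Filter.Eventually.of_forall fun ω => ?_
      have := gA_unit (E := E) (free V (Finset.Icc a b)) ω f hf01
      rw [Real.norm_eq_abs, abs_of_nonneg this.1]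
      exact this.2
    have e : (∫ ω, gA E (free V (Finset.Icc a b)) ω f ∂ρ) - gA E (free V (Finset.Icc a b)) τ f
        = ∫ ω, (gA E (free V (Finset.Icc a b)) ω f
            - gA E (free V (Finset.Icc a b)) τ f) ∂ρ := by
      rw [integral_sub hint (integrable_const _)]
      simp
    rw [e]
    have := norm_integral_le_of_norm_le_const (μ := ρ)
      (f := fun ω => gA E (free V (Finset.Icc a b)) ω f - gA E (free V (Finset.Icc a b)) τ f)
      (C := δ) (by
        filter_upwards [hρ.2.1] with ω hω
        rw [Real.norm_eq_abs]; exact hb ω _ hω fun x _ => rfl)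
    simpa using this
  have hfin : ∀ δ : ℝ, 0 < δ → |(π C).toReal - (π' C).toReal| ≤ 2 * δ := by
    intro δ hδ
    obtain ⟨Λ₀, hΛ⟩ := hF s δ hδ
    obtain ⟨b, hb⟩ := Λ₀.bddAbove
    obtain ⟨a, ha⟩ := Λ₀.bddBelow
    have hsub : Λ₀ ⊆ Finset.Icc a b := by
      intro x hx
      rw [Finset.mem_Icc]
      exact ⟨ha hx, hb hx⟩
    have hh := hΛ (Finset.Icc a b) hsub f hf01 hfl
    have h1 := key π hπ a b δ hδ hh
    have h2 := key π' hπ' a b δ hδ hh
    rw [abs_le] at h1 h2 ⊢
    constructor <;> linarith [h1.1, h1.2, h2.1, h2.2]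
  have heq : (π C).toReal = (π' C).toReal := by
    by_contra hne
    have hpos : 0 < |(π C).toReal - (π' C).toReal| := abs_pos.2 (sub_ne_zero.2 hne)
    have := hfin (|(π C).toReal - (π' C).toReal| / 4) (by positivity)
    linarith
  exact (ENNReal.toReal_eq_toReal_iff' (measure_ne_top _ _) (measure_ne_top _ _)).1 heq

theorem gibbsVE (hE : Nice E) (V : Set (Site d)) (τ : Site d → Bool) :
    ∃ π : Measure (Site d → Bool), IsGibbsV E V τ π := by
  let P : Finset (Site d) → ProbabilityMeasure (Site d → Bool) := fun Λ =>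
    ⟨KA E (free V Λ) (Measure.dirac τ), prob_KA hE (free V Λ) _⟩
  let U : Ultrafilter (Finset (Site d)) := Ultrafilter.of atTop
  have hU : (U : Filter (Finset (Site d))) ≤ atTop := Ultrafilter.of_le _
  obtain ⟨π, -, hπ⟩ := (isCompact_univ (X := ProbabilityMeasure (Site d → Bool))).ultrafilter_le_nhds
    (U.map P) (by simp)
  have hlim : Tendsto P U (𝓝 π) := hπ
  have hconv : ∀ f : (Site d → Bool) → ℝ, Continuous f →
      Tendsto (fun Λ => gA E (free V Λ) τ f) U
        (𝓝 (∫ ω, f ω ∂(π : Measure (Site d → Bool)))) := by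
    intro f hf
    let F : (Site d → Bool) →ᵇ ℝ := BoundedContinuousFunction.mkOfCompact ⟨f, hf⟩
    have h1 := (ProbabilityMeasure.tendsto_iff_forall_integral_tendsto.mp hlim) F
    refine h1.congr fun Λ => ?_
    exact integral_KA_dirac hE (free V Λ) τ f hf.measurable ‖F‖ fun x => F.norm_coe_le_norm x
  -- invariance
  have hinv : ∀ (Λ : Finset (Site d)) (f : (Site d → Bool) → ℝ), Continuous f →
      ∫ ω, gA E (free V Λ) ω f ∂(π : Measure (Site d → Bool)) =
        ∫ ω, f ω ∂(π : Measure (Site d → Bool)) := by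
    intro Λ f hf
    have h1 := hconv f hf
    have h2 := hconv (fun ω => gA E (free V Λ) ω f) (continuous_gA hE (free V Λ) f hf)
    refine tendsto_nhds_unique h2 (h1.congr' ?_)
    have h3 : ∀ᶠ Λ' in (U : Filter (Finset (Site d))), Λ ⊆ Λ' := hU (eventually_ge_atTop Λ)
    filter_upwards [h3] with Λ' hΛ
    refine gA_cons hE (fun x hx => ?_) τ f
    exact mem_free.2 ⟨hΛ (mem_free.1 hx).1, (mem_free.1 hx).2⟩
  have hK : ∀ Λ : Finset (Site d), KA E (free V Λ) (π : Measure (Site d → Bool)) =
      (π : Measure (Site d → Bool)) := by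
    intro Λ
    have := prob_KA hE (free V Λ) (π : Measure (Site d → Bool))
    have : TopologicalSpace.MetrizableSpace (Site d → Bool) :=
      TopologicalSpace.metrizableSpace_of_t3_secondCountable _
    let _ : MetricSpace (Site d → Bool) := TopologicalSpace.metrizableSpaceMetric _
    apply ext_of_forall_integral_eq_of_IsFiniteMeasure
    intro f
    rw [integral_KA hE (free V Λ) _ f f.continuous.measurable ‖f‖ fun x => f.norm_coe_le_norm x]
    exact hinv Λ f f.continuous
  -- the frozen spins
  have hfro : ∀ x ∈ V, ∀ᵐ σ ∂(π : Measure (Site d → Bool)), σ x = τ x := by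
    intro x hx
    set B : Set (Site d → Bool) := {σ | σ x = τ x} with hB
    have hBo : IsClopen B :=
      (isClopen_discrete ({τ x} : Set Bool)).preimage (continuous_apply x)
    set f : (Site d → Bool) → ℝ := B.indicator fun _ => (1 : ℝ) with hf
    have hfc : Continuous f := by
      rw [hf]
      exact continuous_const.indicator fun a ha => by
        rw [hBo.frontier_eq] at ha
        exact absurd ha (Set.notMem_empty a)
    have h1 := hconv f hfc
    have h2 : ∀ Λ : Finset (Site d), gA E (free V Λ) τ f = 1 := by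
      intro Λ
      have h3 : gA E (free V Λ) τ f = gA E (free V Λ) τ (fun _ => 1) := by
        refine gA_congr _ τ _ _ fun η => ?_
        have hxf : x ∉ free V Λ := fun h => (mem_free.1 h).2 hx
        have : glue (free V Λ) η τ ∈ B := by
          show glue (free V Λ) η τ x = τ x
          rw [Basic.glue_not_mem _ _ hxf]
        rw [hf, Set.indicator_of_mem this]
      rw [h3, gA_const]
    have h4 : ∫ ω, f ω ∂(π : Measure (Site d → Bool)) = 1 := by
      refine tendsto_nhds_unique h1 ?_
      simp only [h2]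
      exact tendsto_const_nhds
    have h5 : (π : Measure (Site d → Bool)).real B = 1 := by
      rw [hf, integral_indicator hBo.isOpen.measurableSet] at h4
      simpa using h4
    have h6 : (π : Measure (Site d → Bool)) Bᶜ = 0 := by
      rw [prob_compl_eq_zero_iff hBo.isOpen.measurableSet]
      have := (ENNReal.toReal_eq_one_iff _).1 h5
      exact this
    exact h6
  refine ⟨π, inferInstance, ?_, ?_⟩
  · rw [ae_all_iff]
    intro x
    by_cases hx : x ∈ V
    · filter_upwards [hfro x hx] with σ hσ _
      exact hσ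
    · exact Filter.Eventually.of_forall fun σ h => absurd h hx
  · intro a b A hA
    have hind : Measurable (A.indicator fun _ => (1 : ℝ)) := measurable_const.indicator hA
    have h1 := integral_KA hE (free V (Finset.Icc a b)) (π : Measure (Site d → Bool))
      (A.indicator fun _ => (1 : ℝ)) hind 1 (by
        intro x
        by_cases hx : x ∈ A
        · simp [hx]
        · simp [hx])
    rw [← h1, hK, integral_indicator hA]
    simp [Measure.real]

end Pool.Agent.U475.EA
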