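import Pool.Agent.U475.EA.F.Expl
import Pool.Agent.U475.EA.F.Gibbs

/-!
# The Edwards–Anderson model with an external field and with spin lengths

Energy `β (∑ J_xy (t_x σ_x) (t_y σ_y) + ∑ h_x σ_x)`, for arbitrary fields `h` and lengths `t`;
`t = 1` on a set of sites and `0` elsewhere is site dilution.
-/

set_option autoImplicit false

open MeasureTheory Filter
open scoped ENNReal Topology

namespace Pool.Agent.U475.EA

open Pool.H47EA

variable {d : ℕ}

/-- the term `J_e (t_x σ_x) (t_y σ_y)` of the bond `e = ⟨x,y⟩`: Ising spins of lengths `t` -/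
noncomputable def bondT (J : Coupling d) (t : Site d → ℝ) (σ : Site d → Bool) :
    Sym2 (Site d) → ℝ :=
  Sym2.lift ⟨fun x y => Jc J x y * (t x * sg (σ x)) * (t y * sg (σ y)), fun x y => by
    show Jc J x y * (t x * sg (σ x)) * (t y * sg (σ y)) =
      Jc J y x * (t y * sg (σ y)) * (t x * sg (σ x))
    rw [Jc_comm J x y]; ring⟩

/-- the energy in `Λ`: all bonds which meet `Λ`, and the external field `h` on `Λ`; for the lengths
`t` of the spins -/
noncomputable def enF (β : ℝ) (J : Coupling d) (t h : Site d → ℝ) (Λ : Finset (Site d))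
    (σ : Site d → Bool) : ℝ :=
  β * (∑ e ∈ edgesOf Λ, bondT J t σ e + ∑ x ∈ Λ, h x * sg (σ x))

theorem bondT_mk (J : Coupling d) (t : Site d → ℝ) (σ : Site d → Bool) (x y : Site d) :
    bondT J t σ s(x, y) = Jc J x y * (t x * sg (σ x)) * (t y * sg (σ y)) := rfl

theorem continuous_bondT (J : Coupling d) (t : Site d → ℝ) (e : Sym2 (Site d)) :
    Continuous (fun σ : Site d → Bool => bondT J t σ e) := by
  induction e using Sym2.ind with
  | _ x y =>
    change Continuous (fun σ : Site d → Bool => Jc J x y * (t x * sg (σ x)) * (t y * sg (σ y)))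
    exact (continuous_const.mul (continuous_const.mul
      (GIBBSE.continuous_sg.comp (continuous_apply x)))).mul
      (continuous_const.mul (GIBBSE.continuous_sg.comp (continuous_apply y)))

theorem nice_enF (β : ℝ) (J : Coupling d) (t h : Site d → ℝ) : Nice (enF β J t h) := by
  refine ⟨?_, ?_, ?_⟩
  · intro Λ' Λ hsub σ σ' hs
    have h1 := Finset.sum_sdiff (f := bondT J t σ) (Basic.edgesOf_mono hsub)
    have h2 := Finset.sum_sdiff (f := bondT J t σ') (Basic.edgesOf_mono hsub)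
    have h3 : ∑ e ∈ edgesOf Λ \ edgesOf Λ', bondT J t σ e =
        ∑ e ∈ edgesOf Λ \ edgesOf Λ', bondT J t σ' e := by
      apply Finset.sum_congr rfl
      intro e he
      rw [Finset.mem_sdiff] at he
      obtain ⟨x, hx, y, hy, rfl⟩ := Basic.mem_edgesOf.mp he.1
      have hx' : x ∉ Λ' := by
        intro hx'
        exact he.2 (Basic.mem_edgesOf.mpr ⟨x, hx', y, hy, rfl⟩)
      have hy' : y ∉ Λ' := by
        intro hy'
        exact he.2 (Basic.mem_edgesOf.mpr ⟨y, hy', x, by rw [Basic.dist1_comm]; exact hy,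
          Sym2.eq_swap⟩)
      rw [bondT_mk, bondT_mk, hs x hx', hs y hy']
    have h4 := Finset.sum_sdiff (f := fun x => h x * sg (σ x)) hsub
    have h5 := Finset.sum_sdiff (f := fun x => h x * sg (σ' x)) hsub
    have h6 : ∑ x ∈ Λ \ Λ', h x * sg (σ x) = ∑ x ∈ Λ \ Λ', h x * sg (σ' x) := by
      apply Finset.sum_congr rfl
      intro x hx
      rw [hs x (Finset.mem_sdiff.1 hx).2]
    unfold enF
    rw [← h1, ← h2, ← h4, ← h5, h3, h6]
    ring
  · intro Λ σ σ' hin hout
    unfold enF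
    congr 2
    · apply Finset.sum_congr rfl
      intro e he
      obtain ⟨x, hx, y, hy, rfl⟩ := Basic.mem_edgesOf.mp he
      rw [bondT_mk, bondT_mk, hin x hx]
      by_cases hyΛ : y ∈ Λ
      · rw [hin y hyΛ]
      · rw [hout y hyΛ ⟨x, hx, hy⟩]
    · apply Finset.sum_congr rfl
      intro x hx
      rw [hin x hx]
  · intro Λ
    unfold enF
    exact continuous_const.mul ((continuous_finsetSum _ fun e _ => continuous_bondT J t e).add
      (continuous_finsetSum _ fun x _ => continuous_const.mul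
        (GIBBSE.continuous_sg.comp (continuous_apply x))))

/-- the effective coupling -/
noncomputable def Kt (J : Coupling d) (t : Site d → ℝ) (x y : Site d) : ℝ := t x * t y * Jc J x y

theorem Kt_comm (J : Coupling d) (t : Site d → ℝ) (x y : Site d) : Kt J t x y = Kt J t y x := by
  unfold Kt
  rw [Jc_comm J x y]; ring

theorem Kt_eq_zero (J : Coupling d) (t : Site d → ℝ) (x y : Site d) (h : y ∉ nbr x) :
    Kt J t x y = 0 := by
  unfold Kt
  rw [Jc_eq_zero J x y h, mul_zero]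

theorem hamT_eq_sum (J : Coupling d) (t : Site d → ℝ) (Λ : Finset (Site d)) (σ : Site d → Bool) :
    ∑ e ∈ edgesOf Λ, bondT J t σ e = ∑ x ∈ Λ, ∑ y ∈ nbr x,
      (if y ∈ Λ then Kt J t x y * sg (σ x) * sg (σ y) / 2
        else Kt J t x y * sg (σ x) * sg (σ y)) := by
  rw [edgesOf_eq, ← Finset.sum_sigma (s := Λ) (t := fun x => nbr x)
    (f := fun p : (_ : Site d) × Site d =>
      (if p.2 ∈ Λ then Kt J t p.1 p.2 * sg (σ p.1) * sg (σ p.2) / 2
        else Kt J t p.1 p.2 * sg (σ p.1) * sg (σ p.2)))]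
  refine Finset.sum_image' _ ?_
  rintro ⟨x, y⟩ hp
  rw [Finset.mem_sigma] at hp
  obtain ⟨hx, hy⟩ := hp
  dsimp only at hx hy ⊢
  have hxy : x ≠ y := by
    rintro rfl
    rw [mem_nbr_iff] at hy
    simp [dist1] at hy
  by_cases hyΛ : y ∈ Λ
  · have hfib : (Finset.filter (fun j : (_ : Site d) × Site d => s(j.1, j.2) = s(x, y))
        (Λ.sigma (fun x => nbr x))) = {⟨x, y⟩, ⟨y, x⟩} := by
      ext ⟨u, v⟩
      simp only [Finset.mem_filter, Finset.mem_sigma, Finset.mem_insert, Finset.mem_singleton,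
        Sigma.mk.injEq, heq_eq_eq, Sym2.eq_iff]
      constructor
      · rintro ⟨_, h⟩
        exact h
      · rintro (⟨rfl, rfl⟩ | ⟨rfl, rfl⟩)
        · exact ⟨⟨hx, hy⟩, Or.inl ⟨rfl, rfl⟩⟩
        · refine ⟨⟨hyΛ, ?_⟩, Or.inr ⟨rfl, rfl⟩⟩
          rw [mem_nbr_iff] at hy ⊢
          rw [dist1_comm']
          exact hy
    rw [hfib, Finset.sum_pair]
    · simp only [hyΛ, hx, if_true]
      show Jc J x y * (t x * sg (σ x)) * (t y * sg (σ y)) = _
      unfold Kt
      rw [Jc_comm J y x]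
      ring
    · intro h
      rw [Sigma.mk.injEq] at h
      exact hxy h.1
  · have hfib : (Finset.filter (fun j : (_ : Site d) × Site d => s(j.1, j.2) = s(x, y))
        (Λ.sigma (fun x => nbr x))) = {⟨x, y⟩} := by
      ext ⟨u, v⟩
      simp only [Finset.mem_filter, Finset.mem_sigma, Finset.mem_singleton,
        Sigma.mk.injEq, heq_eq_eq, Sym2.eq_iff]
      constructor
      · rintro ⟨⟨hu, _⟩, (h | ⟨rfl, rfl⟩)⟩
        · exact h
        · exact absurd hu hyΛ
      · rintro ⟨rfl, rfl⟩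
        exact ⟨⟨hx, hy⟩, Or.inl ⟨rfl, rfl⟩⟩
    rw [hfib, Finset.sum_singleton]
    simp only [hyΛ, if_false]
    show Jc J x y * (t x * sg (σ x)) * (t y * sg (σ y)) = _
    unfold Kt
    ring

theorem hamT_glue (J : Coupling d) (t : Site d → ℝ) (Λ : Finset (Site d)) (ω : Site d → Bool)
    (η : {x // x ∈ Λ} → Bool) :
    ∑ e ∈ edgesOf Λ, bondT J t (glue Λ η ω) e =
      (∑ y : {x // x ∈ Λ}, ∑ z : {x // x ∈ Λ}, Kt J t y.1 z.1 * sg (η y) * sg (η z)) / 2 +
      ∑ y : {x // x ∈ Λ}, (∑ z ∈ nbr y.1 \ Λ, Kt J t y.1 z * sg (ω z)) * sg (η y) := by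
  have hin : ∀ y : {x // x ∈ Λ}, η y = glue Λ η ω y.1 := by
    intro y
    unfold glue
    rw [dif_pos y.2]
  have hout : ∀ z, z ∉ Λ → ω z = glue Λ η ω z := by
    intro z hz
    unfold glue
    rw [dif_neg hz]
  set σ := glue Λ η ω with hσ
  have e1 : (∑ y : {x // x ∈ Λ}, ∑ z : {x // x ∈ Λ}, Kt J t y.1 z.1 * sg (η y) * sg (η z)) =
      ∑ y ∈ Λ, ∑ z ∈ Λ, Kt J t y z * sg (σ y) * sg (σ z) := by
    rw [← Finset.sum_coe_sort Λ]
    refine Finset.sum_congr rfl fun y _ => ?_
    rw [← Finset.sum_coe_sort Λ]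
    refine Finset.sum_congr rfl fun z _ => ?_
    rw [hin y, hin z]
  have e2 : (∑ y : {x // x ∈ Λ}, (∑ z ∈ nbr y.1 \ Λ, Kt J t y.1 z * sg (ω z)) * sg (η y)) =
      ∑ y ∈ Λ, ∑ z ∈ nbr y \ Λ, Kt J t y z * sg (σ y) * sg (σ z) := by
    rw [← Finset.sum_coe_sort Λ]
    refine Finset.sum_congr rfl fun y _ => ?_
    rw [Finset.sum_mul]
    refine Finset.sum_congr rfl fun z hz => ?_
    rw [hin y, hout z (Finset.mem_sdiff.1 hz).2]
    ring
  rw [e1, e2, hamT_eq_sum, Finset.sum_div, ← Finset.sum_add_distrib]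
  refine Finset.sum_congr rfl fun x hx => ?_
  have e3 : (∑ z ∈ Λ, Kt J t x z * sg (σ x) * sg (σ z)) / 2 =
      ∑ z ∈ (nbr x).filter (fun z => z ∈ Λ), Kt J t x z * sg (σ x) * sg (σ z) / 2 := by
    rw [Finset.sum_div]
    symm
    refine Finset.sum_subset ?_ ?_
    · intro z hz
      exact (Finset.mem_filter.1 hz).2
    · intro z hz hz'
      rw [Kt_eq_zero J t x z (fun h => hz' (Finset.mem_filter.2 ⟨h, hz⟩))]
      ring
  have e4 : nbr x \ Λ = (nbr x).filter (fun z => ¬ z ∈ Λ) := by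
    ext z
    rw [Finset.mem_sdiff, Finset.mem_filter]
  rw [e3, e4, ← Finset.sum_filter_add_sum_filter_not (nbr x) (fun z => z ∈ Λ)
    (fun y => if y ∈ Λ then Kt J t x y * sg (σ x) * sg (σ y) / 2
      else Kt J t x y * sg (σ x) * sg (σ y))]
  congr 1
  · refine Finset.sum_congr rfl fun z hz => ?_
    rw [if_pos (Finset.mem_filter.1 hz).2]
  · refine Finset.sum_congr rfl fun z hz => ?_
    rw [if_neg (Finset.mem_filter.1 hz).2]

/-- the finite-volume mean as a finite Ising average -/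
theorem reduceF (β : ℝ) (J : Coupling d) (t h : Site d → ℝ) (Λ : Finset (Site d))
    (ω : Site d → Bool) (f : (Site d → Bool) → ℝ) :
    gA (enF β J t h) Λ ω f =
      av (U := {x // x ∈ Λ})
        (fun η => Real.exp ((∑ y, ∑ z, (β * Kt J t y.1 z.1) * sg (η y) * sg (η z)) / 2))
        (fun y => β * h y.1 + β * ∑ z ∈ nbr y.1 \ Λ, Kt J t y.1 z * sg (ω z))
        (fun η => f (glue Λ η ω)) := by
  have key : ∀ η : {x // x ∈ Λ} → Bool, Real.exp (enF β J t h Λ (glue Λ η ω)) =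
      Wt (U := {x // x ∈ Λ})
        (fun η => Real.exp ((∑ y, ∑ z, (β * Kt J t y.1 z.1) * sg (η y) * sg (η z)) / 2))
        (fun y => β * h y.1 + β * ∑ z ∈ nbr y.1 \ Λ, Kt J t y.1 z * sg (ω z)) η := by
    intro η
    have hf : ∑ x ∈ Λ, h x * sg (glue Λ η ω x) = ∑ y : {x // x ∈ Λ}, h y.1 * sg (η y) := by
      rw [← Finset.sum_coe_sort Λ]
      refine Finset.sum_congr rfl fun y _ => ?_
      rw [Basic.glue_mem η ω y.2]
    unfold Wt enF
    rw [← Real.exp_add, hamT_glue, hf]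
    congr 1
    have e1 : β * ((∑ y : {x // x ∈ Λ}, ∑ z : {x // x ∈ Λ},
        Kt J t y.1 z.1 * sg (η y) * sg (η z)) / 2) =
        (∑ y : {x // x ∈ Λ}, ∑ z : {x // x ∈ Λ}, (β * Kt J t y.1 z.1) * sg (η y) * sg (η z)) / 2 := by
      rw [← mul_div_assoc, Finset.mul_sum]
      congr 1
      refine Finset.sum_congr rfl fun y _ => ?_
      rw [Finset.mul_sum]
      refine Finset.sum_congr rfl fun z _ => ?_
      ring
    have e2 : ∑ y : {x // x ∈ Λ},
        (β * h y.1 + β * ∑ z ∈ nbr y.1 \ Λ, Kt J t y.1 z * sg (ω z)) * sg (η y) =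
        β * (∑ y : {x // x ∈ Λ}, (∑ z ∈ nbr y.1 \ Λ, Kt J t y.1 z * sg (ω z)) * sg (η y)) +
        β * ∑ y : {x // x ∈ Λ}, h y.1 * sg (η y) := by
      rw [Finset.mul_sum, Finset.mul_sum, ← Finset.sum_add_distrib]
      refine Finset.sum_congr rfl fun y _ => ?_
      ring
    rw [← e1, e2]
    ring
  unfold gA ZA av Zf
  congr 1
  · exact Finset.sum_congr rfl fun η _ => by rw [← key η]
  · exact Finset.sum_congr rfl fun η _ => by rw [← key η]

end Pool.Agent.U475.EA
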