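import Pool.Agent.U475.EA.F.Spec

/-!
# The exploration inequality for a general nearest-neighbour energy
-/

set_option autoImplicit false

open MeasureTheory Filter
open scoped ENNReal Topology

namespace Pool.Agent.U475.EA

open Pool.H47EA Pool.H47EA.ExplAux

variable {d : ℕ} {E : Finset (Site d) → (Site d → Bool) → ℝ}

/-- no site of `U` at distance exactly `R' + 1` from `D`: no dependence on the boundary condition -/
theorem case_twoA (hE : Nice E) (R' : ℕ) 
    (A : Finset (Site d)) (f : (Site d → Bool) → ℝ) (hfA : LocalOn A f)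
    (U : Finset (Site d)) (D : Set (Site d)) (hA : ∀ a ∈ A, ∀ y ∈ D, R' + 1 ≤ dist1 a y)
    (ω ω' : Site d → Bool) (hω : ∀ y, y ∉ D → y ∉ U → ω y = ω' y)
    (hno : ¬ ∃ x ∈ U, (∀ y ∈ D, R' + 1 ≤ dist1 x y) ∧ ∃ y ∈ D, dist1 x y = R' + 1) :
    gA E U ω f = gA E U ω' f := by
  classical
  set U' : Finset (Site d) := U.filter (fun y => ∀ z ∈ D, R' + 1 ≤ dist1 y z) with hU'
  have hsub : U' ⊆ U := Finset.filter_subset _ _
  -- sites with all distances at least `R' + 1`
  have hfar : ∀ y ∈ U', ∀ z ∈ D, R' + 2 ≤ dist1 y z := by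
    intro y hy z hz
    rw [hU', Finset.mem_filter] at hy
    rcases Nat.lt_or_ge (dist1 y z) (R' + 2) with h | h
    · exact absurd ⟨y, hy.1, hy.2, z, hz, le_antisymm (by omega) (hy.2 z hz)⟩ hno
    · exact h
  have hnb : ∀ y, y ∉ U' → (∃ x ∈ U', (lat d).Adj x y) → y ∉ U ∧ y ∉ D := by
    rintro y hy ⟨x, hx, hxy⟩
    have hxy' : dist1 x y = 1 := hxy
    have h1 : ∀ z ∈ D, R' + 1 ≤ dist1 y z := by
      intro z hz
      have := hfar x hx z hz
      have := dist_tri x y z
      omega
    refine ⟨fun hyU => hy (by rw [hU', Finset.mem_filter]; exact ⟨hyU, h1⟩), fun hyD => ?_⟩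
    have := h1 y hyD
    rw [dist_self] at this
    omega
  have hAn : ∀ a ∈ A, a ∉ U' → a ∉ U ∧ a ∉ D := by
    intro a ha haU
    refine ⟨fun h => haU (by rw [hU', Finset.mem_filter]; exact ⟨h, hA a ha⟩), fun hyD => ?_⟩
    have := hA a ha a hyD
    rw [dist_self] at this
    omega
  -- one configuration
  have hone : ∀ (τ : Site d → Bool), gA E U τ f = gA E U' τ f := by
    intro τ
    obtain ⟨-, b2, b3, -, b6, -⟩ := basicA hE U τ
    rw [b6 U' hsub f]
    have hconst : ∀ η : U → Bool, gA E U' (glue U η τ) f = gA E U' τ f := by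
      intro η
      obtain ⟨-, -, -, -, -, b7⟩ := basicA hE U' (glue U η τ)
      refine b7 τ f ?_ ?_
      · intro y hy hadj
        have := (hnb y hy hadj).1
        simp [glue, this]
      · intro η'
        refine hfA _ _ fun a ha => ?_
        by_cases haU : a ∈ U'
        · simp [glue, haU]
        · have := (hAn a ha haU).1
          simp [glue, haU, this]
    apply le_antisymm
    · calc gA E U τ (fun τ' => gA E U' τ' f) ≤ gA E U τ (fun _ => gA E U' τ f) :=
            b3 _ _ fun η => (hconst η).le
        _ = gA E U' τ f := b2 _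
    · calc gA E U' τ f = gA E U τ (fun _ => gA E U' τ f) := (b2 _).symm
        _ ≤ gA E U τ (fun τ' => gA E U' τ' f) := b3 _ _ fun η => (hconst η).ge
  rw [hone ω, hone ω']
  obtain ⟨-, -, -, -, -, b7⟩ := basicA hE U' ω
  refine b7 ω' f ?_ ?_
  · intro y hy hadj
    obtain ⟨h1, h2⟩ := hnb y hy hadj
    exact hω y h2 h1
  · intro η
    refine hfA _ _ fun a ha => ?_
    by_cases haU : a ∈ U'
    · simp [glue, haU]
    · obtain ⟨h1, h2⟩ := hAn a ha haU
      simp only [glue, haU, dif_neg, not_false_iff]
      exact hω a h2 h1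

/-- the general claim -/
theorem claimA (hE : Nice E) (R R' : ℕ) (hR : R ≤ R') (p : Site d → ℝ)
    (hp : ∀ (x : Site d) (Λ : Finset (Site d)), x ∈ Λ → ∀ ω ω' : Site d → Bool,
      (∀ y ∈ ball x R, y ∉ Λ → ω y = ω' y) →
      |gA E Λ ω (ind x) - gA E Λ ω' (ind x)| ≤ p x)
    (A : Finset (Site d)) (f : (Site d → Bool) → ℝ) (hf : Unit01 f) (hfA : LocalOn A f) :
    ∀ (m : ℕ) (U : Finset (Site d)), U.card = m → ∀ (D : Set (Site d)), (∀ y ∈ D, y ∉ U) →
      (∀ a ∈ A, ∀ y ∈ D, R' + 1 ≤ dist1 a y) → ∀ ω ω' : Site d → Bool,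
      (∀ y, y ∉ D → y ∉ U → ω y = ω' y) →
      ENNReal.ofReal |gA E U ω f - gA E U ω' f| ≤
        S R' A (fun x => ENNReal.ofReal (p x)) U D := by
  classical
  intro m
  induction m with
  | zero =>
    intro U hU D hD hA ω ω' hω
    have hno : ¬ ∃ x ∈ U, (∀ y ∈ D, R' + 1 ≤ dist1 x y) ∧ ∃ y ∈ D, dist1 x y = R' + 1 := by
      rw [Finset.card_eq_zero] at hU
      simp [hU]
    rw [case_twoA hE R' A f hfA U D hA ω ω' hω hno]
    simp
  | succ m ih =>
    intro U hU D hD hA ω ω' hω
    by_cases hno : ∃ x ∈ U, (∀ y ∈ D, R' + 1 ≤ dist1 x y) ∧ ∃ y ∈ D, dist1 x y = R' + 1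
    · obtain ⟨x, hx, hxD, hxD'⟩ := hno
      set P : Site d → ℝ≥0∞ := fun x => ENNReal.ofReal (p x) with hP
      have hcard : (U.erase x).card = m := by
        rw [Finset.card_erase_of_mem hx, hU]; rfl
      obtain ⟨b1, -, -, b5, -, -⟩ := basicA hE U ω
      obtain ⟨b1', -, -, b5', -, -⟩ := basicA hE U ω'
      have hind : Unit01 (ind (d := d) x) := by
        intro σ
        unfold ind
        split_ifs <;> norm_num
      set a := gA E U ω (ind x) with ha
      set a' := gA E U ω' (ind x) with ha'
      have ha01 : 0 ≤ a ∧ a ≤ 1 := b1 _ hind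
      have ha01' : 0 ≤ a' ∧ a' ≤ 1 := b1' _ hind
      have hq : |a - a'| ≤ p x := by
        refine hp x U hx ω ω' fun y hy hyU => hω y (fun hyD => ?_) hyU
        have h1 := mem_ball_dist hy
        have h2 := hxD y hyD
        omega
      rw [b5 x hx f, b5' x hx f]
      set F1 := gA E (U.erase x) (Function.update ω x true) f
      set F2 := gA E (U.erase x) (Function.update ω x false) f
      set G1 := gA E (U.erase x) (Function.update ω' x true) f
      set G2 := gA E (U.erase x) (Function.update ω' x false) f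
      have hDU : ∀ y ∈ D, y ∉ U.erase x := fun y hy h => hD y hy (Finset.mem_of_mem_erase h)
      have hsame : ∀ s : Bool, ENNReal.ofReal |gA E (U.erase x) (Function.update ω x s) f -
          gA E (U.erase x) (Function.update ω' x s) f| ≤ S R' A P (U.erase x) D := by
        intro s
        refine ih (U.erase x) hcard D hDU hA _ _ fun y hyD hyU => ?_
        by_cases hyx : y = x
        · subst hyx; simp
        · rw [Function.update_of_ne hyx, Function.update_of_ne hyx]
          exact hω y hyD fun h => hyU (Finset.mem_erase.2 ⟨hyx, h⟩)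
      have hdiff : ∀ s s' : Bool, ENNReal.ofReal |gA E (U.erase x) (Function.update ω x s) f -
          gA E (U.erase x) (Function.update ω' x s') f| ≤
            S R' A P (U.erase x) D + Tx R' A P U D x := by
        intro s s'
        by_cases hnear : ∃ a ∈ A, dist1 a x ≤ R'
        · refine le_trans ?_ (le_trans (one_le_Tx R' A P U D x hx hxD hxD' hnear) le_add_self)
          rw [← ENNReal.ofReal_one]
          apply ENNReal.ofReal_le_ofReal
          obtain ⟨c1, -⟩ := basicA hE (U.erase x) (Function.update ω x s)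
          obtain ⟨c1', -⟩ := basicA hE (U.erase x) (Function.update ω' x s')
          have h1 := c1 f hf
          have h2 := c1' f hf
          rw [abs_le]
          constructor <;> linarith [h1.1, h1.2, h2.1, h2.2]
        · push Not at hnear
          refine le_trans ?_ (S_insert R' A P U D x hx hxD hxD')
          refine ih (U.erase x) hcard (insert x D) ?_ ?_ _ _ ?_
          · intro y hy
            rcases hy with hy | hy
            · rw [hy]; exact Finset.notMem_erase x U
            · exact hDU y hy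
          · intro a ha y hy
            rcases hy with hy | hy
            · rw [hy]; exact hnear a ha
            · exact hA a ha y hy
          · intro y hyD hyU
            have hyx : y ≠ x := fun h => hyD (by rw [h]; exact Set.mem_insert _ _)
            rw [Function.update_of_ne hyx, Function.update_of_ne hyx]
            exact hω y (fun h => hyD (Set.mem_insert_of_mem _ h))
              fun h => hyU (Finset.mem_erase.2 ⟨hyx, h⟩)
      obtain ⟨b, c, hb0, hc0, hbc, hmix⟩ := mix a a' F1 F2 G1 G2 ha01 ha01'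
      have hq0 : 0 ≤ |a - a'| := abs_nonneg _
      calc ENNReal.ofReal |(a * F1 + (1 - a) * F2) - (a' * G1 + (1 - a') * G2)|
          ≤ ENNReal.ofReal (b * |F1 - G1| + c * |F2 - G2| +
              |a - a'| * max |F1 - G2| |F2 - G1|) := ENNReal.ofReal_le_ofReal hmix
        _ = ENNReal.ofReal b * ENNReal.ofReal |F1 - G1| + ENNReal.ofReal c * ENNReal.ofReal |F2 - G2| +
              ENNReal.ofReal |a - a'| * max (ENNReal.ofReal |F1 - G2|) (ENNReal.ofReal |F2 - G1|) := by
            rw [ENNReal.ofReal_add (by positivity) (by positivity),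
              ENNReal.ofReal_add (by positivity) (by positivity), ENNReal.ofReal_mul hb0,
              ENNReal.ofReal_mul hc0, ENNReal.ofReal_mul hq0]
            congr 2
            exact (ENNReal.ofReal_mono.map_max)
        _ ≤ ENNReal.ofReal b * S R' A P (U.erase x) D + ENNReal.ofReal c * S R' A P (U.erase x) D +
              ENNReal.ofReal |a - a'| * (S R' A P (U.erase x) D + Tx R' A P U D x) := by
            refine add_le_add (add_le_add ?_ ?_) ?_
            · exact mul_le_mul_right (hsame true) _
            · exact mul_le_mul_right (hsame false) _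
            · exact mul_le_mul_right (max_le (hdiff true false) (hdiff false true)) _
        _ = (ENNReal.ofReal b + ENNReal.ofReal c + ENNReal.ofReal |a - a'|) *
              S R' A P (U.erase x) D + ENNReal.ofReal |a - a'| * Tx R' A P U D x := by ring
        _ = S R' A P (U.erase x) D + ENNReal.ofReal |a - a'| * Tx R' A P U D x := by
            rw [← ENNReal.ofReal_add hb0 hc0, ← ENNReal.ofReal_add (by positivity) hq0, hbc,
              ENNReal.ofReal_one, one_mul]
        _ ≤ S R' A P (U.erase x) D + P x * Tx R' A P U D x := by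
            refine add_le_add le_rfl (mul_le_mul_left (ENNReal.ofReal_le_ofReal hq) _)
        _ ≤ S R' A P U D := S_split R' A P U D x
    · rw [case_twoA hE R' A f hfA U D hA ω ω' hω hno]
      simp

/-- the exploration inequality -/
theorem explA (hE : Nice E) (R R' : ℕ) (hR : R ≤ R') (p : Site d → ℝ)
    (hp : ∀ (x : Site d) (Λ : Finset (Site d)), x ∈ Λ → ∀ ω ω' : Site d → Bool,
      (∀ y ∈ ball x R, y ∉ Λ → ω y = ω' y) →
      |gA E Λ ω (ind x) - gA E Λ ω' (ind x)| ≤ p x)
    (A : Finset (Site d)) (f : (Site d → Bool) → ℝ) (hf : Unit01 f) (hfA : LocalOn A f)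
    (Λ : Finset (Site d)) (n : ℕ) (hA : ∀ a ∈ A, ∀ y, y ∉ Λ → (n + 1) * (R' + 1) ≤ dist1 a y)
    (ω ω' : Site d → Bool) :
    ENNReal.ofReal |gA E Λ ω f - gA E Λ ω' f| ≤
      chSum R' A (fun x => ENNReal.ofReal (p x)) n := by
  classical
  have h1 := claimA hE R R' hR p hp A f hf hfA Λ.card Λ rfl {y | y ∉ Λ} (fun y hy => hy)
    (fun a ha y hy => by
      have := hA a ha y hy
      nlinarith [Nat.zero_le n, Nat.zero_le R']) ω ω'
    (fun y h1 h2 => absurd h2 h1)
  refine h1.trans ?_
  unfold S chSum
  refine ENNReal.tsum_le_tsum fun l => ?_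
  by_cases hc : Cnt R' A Λ {y | y ∉ Λ} l
  · rw [if_pos hc]
    have h2 : IsCh R' A l ∧ n ≤ l.length := by
      refine ⟨hc.1, ?_⟩
      obtain ⟨h3, -, -, x0, hx0, y, hy, hxy⟩ := hc
      obtain ⟨a, ha, h4⟩ := chain_dist R' A l h3 x0 hx0
      have h5 := hA a ha y hy
      have h6 := dist_tri a x0 y
      have h7 : (n + 1) * (R' + 1) < (l.length + 1) * (R' + 1) := by
        have : (l.length + 1) * (R' + 1) = l.length * (R' + 1) + (R' + 1) := by ring
        omega
      have h8 := Nat.lt_of_mul_lt_mul_right h7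
      omega
    rw [if_pos h2]
  · rw [if_neg hc]
    exact zero_le

end Pool.Agent.U475.EA
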