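import Pool.Agent.U475.EA.F.Energy

/-!
# The influence bound on a good ball, for all external fields and spin lengths
-/

set_option autoImplicit false

open MeasureTheory Filter
open scoped ENNReal Topology

namespace Pool.Agent.U475.EA

open Pool.H47EA Pool.H47EA.InfAux

variable {d : ℕ}

theorem abs_Kt_le (J : Coupling d) (t : Site d → ℝ) (ht : ∀ x, |t x| ≤ 1) (x y : Site d) :
    |Kt J t x y| ≤ 1 := by
  unfold Kt
  rw [abs_mul, abs_mul]
  have h1 := abs_Jc_le J x y
  have h2 : |t x| * |t y| ≤ 1 := mul_le_one₀ (ht x) (abs_nonneg _) (ht y)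
  exact mul_le_one₀ h2 (abs_nonneg _) h1

theorem sqrt_t_le (t : Site d → ℝ) (ht : ∀ x, |t x| ≤ 1) (B : Finset (Site d))
    (u : Site d → ℝ) : √(∑ y ∈ B, (u y * t y) ^ 2) ≤ √(∑ y ∈ B, u y ^ 2) := by
  apply Real.sqrt_le_sqrt
  refine Finset.sum_le_sum fun y _ => ?_
  rw [mul_pow]
  have h1 : t y ^ 2 ≤ 1 := by
    rw [← sq_abs]
    exact pow_le_one₀ (abs_nonneg _) (ht y)
  nlinarith [sq_nonneg (u y)]

theorem good_t (J : Coupling d) (t : Site d → ℝ) (ht : ∀ x, |t x| ≤ 1) (x : Site d) (R : ℕ)
    (T : ℝ) (hT : 0 ≤ T) (hg : Good J x R T) :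
    (∀ u v : Site d → ℝ, |∑ y ∈ ball x R, ∑ z ∈ ball x R, u y * Kt J t y z * v z| ≤
      T * √(∑ y ∈ ball x R, u y ^ 2) * √(∑ y ∈ ball x R, v y ^ 2)) ∧
    (∀ u v : Site d → ℝ, |∑ y ∈ ball x R, ∑ z ∈ ball x R,
        u y * (Real.exp ((dist1 x z : ℝ) - (dist1 x y : ℝ)) * Kt J t y z) * v z| ≤
      T * √(∑ y ∈ ball x R, u y ^ 2) * √(∑ y ∈ ball x R, v y ^ 2)) := by
  constructor
  · intro u v
    have h1 := hg.1 (fun y => u y * t y) (fun y => v y * t y)
    have e : ∑ y ∈ ball x R, ∑ z ∈ ball x R, u y * Kt J t y z * v z =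
        ∑ y ∈ ball x R, ∑ z ∈ ball x R, u y * t y * Jc J y z * (v z * t z) := by
      refine Finset.sum_congr rfl fun y _ => Finset.sum_congr rfl fun z _ => ?_
      unfold Kt; ring
    rw [e]
    refine h1.trans ?_
    have h2 := sqrt_t_le t ht (ball x R) u
    have h3 := sqrt_t_le t ht (ball x R) v
    gcongr
  · intro u v
    have h1 := hg.2 (fun y => u y * t y) (fun y => v y * t y)
    have e : ∑ y ∈ ball x R, ∑ z ∈ ball x R,
        u y * (Real.exp ((dist1 x z : ℝ) - (dist1 x y : ℝ)) * Kt J t y z) * v z =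
        ∑ y ∈ ball x R, ∑ z ∈ ball x R, u y * t y *
          (Real.exp ((dist1 x z : ℝ) - (dist1 x y : ℝ)) * Jc J y z) * (v z * t z) := by
      refine Finset.sum_congr rfl fun y _ => Finset.sum_congr rfl fun z _ => ?_
      unfold Kt; ring
    rw [e]
    refine h1.trans ?_
    have h2 := sqrt_t_le t ht (ball x R) u
    have h3 := sqrt_t_le t ht (ball x R) v
    gcongr

/-- the influence bound in a finite volume contained in the ball -/
theorem innerF (J : Coupling d) (t h : Site d → ℝ) (ht : ∀ x, |t x| ≤ 1) (x : Site d) (R : ℕ)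
    (T : ℝ) (hT : 0 < T) (hg0 : Good J x R T) (β : ℝ) (hβ : 0 < β) (hβT : 4 * T * β ≤ 1)
    (L : Finset (Site d)) (hx : x ∈ L) (hLB : L ⊆ ball x R) (τ τ' : Site d → Bool)
    (hτ : ∀ y ∈ ball x R, y ∉ L → τ y = τ' y) :
    |gA (enF β J t h) L τ (ind x) - gA (enF β J t h) L τ' (ind x)| ≤
      Real.exp (-(R : ℝ)) * (4 * β * d) * √((ball x R).card : ℝ) := by
  classical
  have hg := good_t J t ht x R T hT.le hg0
  set g : ({y // y ∈ L} → Bool) → ℝ := fun η =>
    Real.exp ((∑ y, ∑ z, (β * Kt J t y.1 z.1) * sg (η y) * sg (η z)) / 2) with hgd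
  set hh : (Site d → Bool) → {y // y ∈ L} → ℝ := fun τ y =>
    β * h y.1 + β * ∑ z ∈ nbr y.1 \ L, Kt J t y.1 z * sg (τ z) with hhd
  set e : {y // y ∈ L} → ℝ := Pi.single ⟨x, hx⟩ 1 with he
  set w : {y // y ∈ L} → ℝ := fun y => Real.exp (-(dist1 x y.1 : ℝ)) with hw
  have hgpos : ∀ η, 0 < g η := fun η => Real.exp_pos _
  -- the averages
  have hZ : ∀ h' : {y // y ∈ L} → ℝ, 0 < Zf g h' := by
    intro h'
    unfold Zf Wt
    exact Finset.sum_pos (fun σ _ => mul_pos (hgpos σ) (Real.exp_pos _)) Finset.univ_nonempty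
  have hav : ∀ τ : Site d → Bool, gA (enF β J t h) L τ (ind x) = (1 + av g (hh τ) (lin e)) / 2 := by
    intro τ
    rw [reduceF β J t h L τ (ind x)]
    show av g (hh τ) (fun η => ind x (glue L η τ)) = _
    have h1 : (fun η : {y // y ∈ L} → Bool => ind x (glue L η τ)) = fun η => (1 + lin e η) / 2 := by
      funext η
      have h2 : lin e η = sg (η ⟨x, hx⟩) := by
        unfold lin
        rw [Finset.sum_eq_single ⟨x, hx⟩]
        · rw [he]; simp
        · intro y _ hy
          rw [he, Pi.single_eq_of_ne hy, zero_mul]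
        · intro h; exact absurd (Finset.mem_univ _) h
      rw [h2]
      unfold ind glue sg
      simp only [hx, dif_pos]
      split_ifs <;> norm_num
    rw [h1]
    unfold av
    have h3 : ∑ σ, Wt g (hh τ) σ * ((1 + lin e σ) / 2) =
        (Zf g (hh τ) + ∑ σ, Wt g (hh τ) σ * lin e σ) / 2 := by
      unfold Zf
      rw [← Finset.sum_add_distrib, Finset.sum_div]
      exact Finset.sum_congr rfl fun σ _ => by ring
    rw [h3]
    have := (hZ (hh τ)).ne'
    field_simp
  -- the covariance bound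
  have hcov : CovLe g w 2 := by
    refine t_ISING (t_COV2 t_COV1) {y // y ∈ L} (fun y z => β * Kt J t y.1 z.1) w (β * T) ?_ ?_ ?_ ?_ ?_ ?_
    · intro y z
      rw [Kt_comm]
    · intro y; exact Real.exp_pos _
    · positivity
    · linarith
    · intro a b
      have h1 := form_restrict (ball x R) L hLB (fun y z => Kt J t y z) T hg.1 a b
      have h2 : ∑ y : {y // y ∈ L}, ∑ z : {y // y ∈ L}, a y * (β * Kt J t y.1 z.1) * b z =
          β * ∑ y : {y // y ∈ L}, ∑ z : {y // y ∈ L}, a y * Kt J t y.1 z.1 * b z := by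
        rw [Finset.mul_sum]
        refine Finset.sum_congr rfl fun y _ => ?_
        rw [Finset.mul_sum]
        exact Finset.sum_congr rfl fun z _ => by ring
      have h3 : nrmI (fun _ : {y // y ∈ L} => (1 : ℝ)) a = √(∑ y, a y ^ 2) := by
        unfold nrmI; simp
      have h4 : nrmW (fun _ : {y // y ∈ L} => (1 : ℝ)) b = √(∑ y, b y ^ 2) := by
        unfold nrmW; simp
      rw [h2, h3, h4, abs_mul, abs_of_pos hβ]
      calc β * |∑ y : {y // y ∈ L}, ∑ z : {y // y ∈ L}, a y * Kt J t y.1 z.1 * b z| ≤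
            β * (T * √(∑ y, a y ^ 2) * √(∑ y, b y ^ 2)) := mul_le_mul_of_nonneg_left h1 hβ.le
        _ = _ := by ring
    · intro a b
      have h1 := form_restrict (ball x R) L hLB
        (fun y z => Real.exp ((dist1 x z : ℝ) - (dist1 x y : ℝ)) * Kt J t y z) T hg.2
        (fun y => a y / w y) (fun z => b z * w z)
      have h2 : ∑ y : {y // y ∈ L}, ∑ z : {y // y ∈ L}, a y * (β * Kt J t y.1 z.1) * b z =
          β * ∑ y : {y // y ∈ L}, ∑ z : {y // y ∈ L}, a y / w y *
            (Real.exp ((dist1 x z.1 : ℝ) - (dist1 x y.1 : ℝ)) * Kt J t y.1 z.1) * (b z * w z) := by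
        rw [Finset.mul_sum]
        refine Finset.sum_congr rfl fun y _ => ?_
        rw [Finset.mul_sum]
        refine Finset.sum_congr rfl fun z _ => ?_
        have h5 : Real.exp ((dist1 x z.1 : ℝ) - (dist1 x y.1 : ℝ)) * w z = w y := by
          simp only [hw]
          rw [← Real.exp_add]
          congr 1
          ring
        have h6 : w y ≠ 0 := (Real.exp_pos _).ne'
        calc a y * (β * Kt J t y.1 z.1) * b z = β * (a y / w y * Kt J t y.1 z.1 * b z * w y) := by
              field_simp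
          _ = _ := by rw [← h5]; ring
      rw [h2, abs_mul, abs_of_pos hβ]
      unfold nrmI nrmW
      calc β * |∑ y : {y // y ∈ L}, ∑ z : {y // y ∈ L}, a y / w y *
            (Real.exp ((dist1 x z.1 : ℝ) - (dist1 x y.1 : ℝ)) * Kt J t y.1 z.1) * (b z * w z)| ≤
            β * (T * √(∑ y, (a y / w y) ^ 2) * √(∑ y, (b y * w y) ^ 2)) :=
            mul_le_mul_of_nonneg_left h1 hβ.le
        _ = _ := by ring
  -- the bound
  have hdiff := t_DIFF {y // y ∈ L} g w 2 hgpos hcov (hh τ) (hh τ') e
  have hI : nrmI w e = 1 := by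
    unfold nrmI
    have : ∑ y, (e y / w y) ^ 2 = 1 := by
      rw [Finset.sum_eq_single ⟨x, hx⟩]
      · rw [he, hw]; simp [dist_self]
      · intro y _ hy
        rw [he, Pi.single_eq_of_ne hy]; simp
      · intro h; exact absurd (Finset.mem_univ _) h
    rw [this, Real.sqrt_one]
  have hE0 : 0 ≤ Real.exp (-(R : ℝ)) * (4 * β * d) := by positivity
  have hW : nrmW w (fun y => hh τ y - hh τ' y) ≤
      Real.exp (-(R : ℝ)) * (4 * β * d) * √((ball x R).card : ℝ) := by
    unfold nrmW
    have hpt : ∀ y : {y // y ∈ L}, ((hh τ y - hh τ' y) * w y) ^ 2 ≤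
        (Real.exp (-(R : ℝ)) * (4 * β * d)) ^ 2 := by
      intro y
      rw [← sq_abs]
      refine pow_le_pow_left₀ (abs_nonneg _) ?_ 2
      have hdel : hh τ y - hh τ' y =
          β * ∑ z ∈ nbr y.1 \ L, Kt J t y.1 z * (sg (τ z) - sg (τ' z)) := by
        simp only [hhd]
        rw [add_sub_add_left_eq_sub, ← mul_sub, ← Finset.sum_sub_distrib]
        congr 1
        exact Finset.sum_congr rfl fun z _ => by ring
      by_cases hout : ∃ z ∈ nbr y.1 \ L, z ∉ ball x R
      · obtain ⟨z, hz, hzb⟩ := hout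
        have hz1 : dist1 y.1 z = 1 := by
          have := (Finset.mem_sdiff.1 hz).1
          unfold nbr at this
          exact (Finset.mem_filter.1 this).2
        have hyR : R ≤ dist1 x y.1 := by
          rw [mem_ball] at hzb
          have := dist_tri x y.1 z
          omega
        have hwy : w y ≤ Real.exp (-(R : ℝ)) := by
          simp only [hw]
          apply Real.exp_le_exp.2
          have : (R : ℝ) ≤ (dist1 x y.1 : ℝ) := by exact_mod_cast hyR
          linarith
        have hs : |∑ z ∈ nbr y.1 \ L, Kt J t y.1 z * (sg (τ z) - sg (τ' z))| ≤ 4 * d := by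
          calc |∑ z ∈ nbr y.1 \ L, Kt J t y.1 z * (sg (τ z) - sg (τ' z))| ≤
                ∑ z ∈ nbr y.1 \ L, |Kt J t y.1 z * (sg (τ z) - sg (τ' z))| :=
                Finset.abs_sum_le_sum_abs _ _
            _ ≤ ∑ z ∈ nbr y.1 \ L, (2 : ℝ) := by
                refine Finset.sum_le_sum fun z _ => ?_
                rw [abs_mul]
                have h1 := abs_Kt_le J t ht y.1 z
                have h2 : |sg (τ z) - sg (τ' z)| ≤ 2 := by
                  refine (abs_sub _ _).trans ?_
                  rw [abs_sg, abs_sg]; norm_num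
                calc |Kt J t y.1 z| * |sg (τ z) - sg (τ' z)| ≤ 1 * 2 :=
                      mul_le_mul h1 h2 (abs_nonneg _) (by norm_num)
                  _ = 2 := by norm_num
            _ = ((nbr y.1 \ L).card : ℝ) * 2 := by rw [Finset.sum_const, nsmul_eq_mul]
            _ ≤ (2 * d : ℝ) * 2 := by
                have h1 : (nbr y.1 \ L).card ≤ 2 * d :=
                  (Finset.card_le_card Finset.sdiff_subset).trans (nbr_card y.1)
                have h2 : ((nbr y.1 \ L).card : ℝ) ≤ 2 * d := by exact_mod_cast h1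
                linarith
            _ = 4 * d := by ring
        rw [abs_mul, hdel, abs_mul, abs_of_pos hβ, abs_of_pos (Real.exp_pos _ : 0 < w y)]
        calc β * |∑ z ∈ nbr y.1 \ L, Kt J t y.1 z * (sg (τ z) - sg (τ' z))| * w y ≤
              β * (4 * d) * Real.exp (-(R : ℝ)) := by
              refine mul_le_mul (mul_le_mul_of_nonneg_left hs hβ.le) hwy (Real.exp_pos _).le
                (by positivity)
          _ = _ := by ring
      · push Not at hout
        have : hh τ y - hh τ' y = 0 := by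
          rw [hdel, Finset.sum_eq_zero, mul_zero]
          intro z hz
          rw [hτ z (hout z hz) (Finset.mem_sdiff.1 hz).2]
          ring
        rw [this, zero_mul, abs_zero]
        exact hE0
    calc √(∑ y, ((hh τ y - hh τ' y) * w y) ^ 2) ≤
          √(((ball x R).card : ℝ) * (Real.exp (-(R : ℝ)) * (4 * β * d)) ^ 2) := by
          refine Real.sqrt_le_sqrt ?_
          refine (Finset.sum_le_sum fun y _ => hpt y).trans ?_
          rw [Finset.sum_const, nsmul_eq_mul]
          refine mul_le_mul_of_nonneg_right ?_ (sq_nonneg _)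
          have : (Finset.univ : Finset {y // y ∈ L}).card ≤ (ball x R).card := by
            rw [Finset.card_univ, Fintype.card_coe]
            exact Finset.card_le_card hLB
          exact_mod_cast this
      _ = Real.exp (-(R : ℝ)) * (4 * β * d) * √((ball x R).card : ℝ) := by
          rw [Real.sqrt_mul (Nat.cast_nonneg _), Real.sqrt_sq hE0]
          ring
  rw [hav τ, hav τ']
  have e1 : (1 + av g (hh τ) (lin e)) / 2 - (1 + av g (hh τ') (lin e)) / 2 =
      (av g (hh τ) (lin e) - av g (hh τ') (lin e)) / 2 := by ring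
  rw [e1, abs_div, abs_of_pos (by norm_num : (0 : ℝ) < 2), div_le_iff₀ (by norm_num : (0 : ℝ) < 2)]
  rw [hI] at hdiff
  linarith

/-- the influence bound on a good ball, for all fields and lengths -/
theorem infF (J : Coupling d) (t h : Site d → ℝ) (ht : ∀ x, |t x| ≤ 1) (x : Site d) (R : ℕ)
    (T : ℝ) (hT : 0 < T) (hg : Good J x R T) (β : ℝ) (hβ : 0 < β) (hβT : 4 * T * β ≤ 1)
    (Λ : Finset (Site d)) (hx : x ∈ Λ) (ω ω' : Site d → Bool)
    (hω : ∀ y ∈ ball x R, y ∉ Λ → ω y = ω' y) :
    |gA (enF β J t h) Λ ω (ind x) - gA (enF β J t h) Λ ω' (ind x)| ≤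
      Real.exp (-(R : ℝ)) * (4 * β * d) * √((ball x R).card : ℝ) := by
  classical
  set L : Finset (Site d) := Λ.filter (fun y => y ∈ ball x R) with hL
  have hLΛ : L ⊆ Λ := Finset.filter_subset _ _
  have hLB : L ⊆ ball x R := fun y hy => (Finset.mem_filter.1 hy).2
  have hxL : x ∈ L := Finset.mem_filter.2 ⟨hx, by rw [mem_ball, dist_self]; exact Nat.zero_le _⟩
  set ε := Real.exp (-(R : ℝ)) * (4 * β * d) * √((ball x R).card : ℝ) with hε
  have hinner : ∀ (η η' : Λ → Bool),
      |gA (enF β J t h) L (glue Λ η ω) (ind x) - gA (enF β J t h) L (glue Λ η' ω') (ind x)| ≤ ε := by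
    intro η η'
    refine innerF J t h ht x R T hT hg β hβ hβT L hxL hLB _ _ fun y hy hyL => ?_
    have hyΛ : y ∉ Λ := fun h => hyL (Finset.mem_filter.2 ⟨h, hy⟩)
    simp only [glue, hyΛ, dif_neg, not_false_iff]
    exact hω y hy hyΛ
  obtain ⟨-, b2, b3, -, b6, -⟩ := basicA (nice_enF β J t h) Λ ω
  obtain ⟨-, b2', b3', -, b6', -⟩ := basicA (nice_enF β J t h) Λ ω'
  rw [b6 L hLΛ (ind x), b6' L hLΛ (ind x)]
  set X := gA (enF β J t h) Λ ω (fun τ => gA (enF β J t h) L τ (ind x)) with hX
  have h1 : ∀ η' : Λ → Bool, |X - gA (enF β J t h) L (glue Λ η' ω') (ind x)| ≤ ε := by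
    intro η'
    set c := gA (enF β J t h) L (glue Λ η' ω') (ind x) with hc
    have u1 : X ≤ c + ε := by
      calc X ≤ gA (enF β J t h) Λ ω (fun _ => c + ε) := b3 _ _ fun η => by
            have := (abs_le.1 (hinner η η')).2
            show gA (enF β J t h) L (glue Λ η ω) (ind x) ≤ c + ε
            linarith
        _ = c + ε := b2 _
    have u2 : c - ε ≤ X := by
      calc c - ε = gA (enF β J t h) Λ ω (fun _ => c - ε) := (b2 _).symm
        _ ≤ X := b3 _ _ fun η => by
            have := (abs_le.1 (hinner η η')).1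
            show c - ε ≤ gA (enF β J t h) L (glue Λ η ω) (ind x)
            linarith
    rw [abs_le]
    constructor <;> linarith
  set Y := gA (enF β J t h) Λ ω' (fun τ => gA (enF β J t h) L τ (ind x)) with hY
  have v1 : X - ε ≤ Y := by
    calc X - ε = gA (enF β J t h) Λ ω' (fun _ => X - ε) := (b2' _).symm
      _ ≤ Y := b3' _ _ fun η => by
          have := (abs_le.1 (h1 η)).2
          show X - ε ≤ gA (enF β J t h) L (glue Λ η ω') (ind x)
          linarith
  have v2 : Y ≤ X + ε := by
    calc Y ≤ gA (enF β J t h) Λ ω' (fun _ => X + ε) := b3' _ _ fun η => by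
          have := (abs_le.1 (h1 η)).1
          show gA (enF β J t h) L (glue Λ η ω') (ind x) ≤ X + ε
          linarith
      _ = X + ε := b2' _
  rw [abs_le]
  constructor <;> linarith

end Pool.Agent.U475.EA
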