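import Pool.Agent.U475.EA.Base

/-!
# Gibbs specifications on `{-1,1}^(ℤ^d)` with a general nearest-neighbour energy

The elementary facts of the library for the Edwards–Anderson energy, for an arbitrary family of
energies `E Λ σ` which is additive (`diff`) and local (`loc`); in particular with an external field.
-/

set_option autoImplicit false

open MeasureTheory Filter
open scoped ENNReal Topology

namespace Pool.Agent.U475.EA

open Pool.H47EA

variable {d : ℕ}

/-- additive and local families of energies -/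
structure Nice (E : Finset (Site d) → (Site d → Bool) → ℝ) : Prop where
  diff : ∀ Λ' Λ : Finset (Site d), Λ' ⊆ Λ → ∀ σ σ' : Site d → Bool,
    (∀ z, z ∉ Λ' → σ z = σ' z) → E Λ σ - E Λ' σ = E Λ σ' - E Λ' σ'
  loc : ∀ (Λ : Finset (Site d)) (σ σ' : Site d → Bool), (∀ x ∈ Λ, σ x = σ' x) →
    (∀ y, y ∉ Λ → (∃ x ∈ Λ, (lat d).Adj x y) → σ y = σ' y) → E Λ σ = E Λ σ'
  cont : ∀ Λ : Finset (Site d), Continuous (E Λ)

/-- partition function -/
noncomputable def ZA (E : Finset (Site d) → (Site d → Bool) → ℝ) (Λ : Finset (Site d))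
    (ω : Site d → Bool) : ℝ :=
  ∑ η : Λ → Bool, Real.exp (E Λ (glue Λ η ω))

/-- the mean of `f` in `Λ` with boundary condition `ω`, for the weights `exp (E Λ σ)` -/
noncomputable def gA (E : Finset (Site d) → (Site d → Bool) → ℝ) (Λ : Finset (Site d))
    (ω : Site d → Bool) (f : (Site d → Bool) → ℝ) : ℝ :=
  (∑ η : Λ → Bool, Real.exp (E Λ (glue Λ η ω)) * f (glue Λ η ω)) / ZA E Λ ω

/-- Gibbs states: the DLR equations for all boxes `{x : a ≤ x ≤ b}` -/
def IsGibbsA (E : Finset (Site d) → (Site d → Bool) → ℝ) (π : Measure (Site d → Bool)) : Prop :=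
  IsProbabilityMeasure π ∧
    ∀ (a b : Site d) (A : Set (Site d → Bool)), MeasurableSet A →
      (π A).toReal = ∫ ω, gA E (Finset.Icc a b) ω (A.indicator fun _ => (1 : ℝ)) ∂π

variable {E : Finset (Site d) → (Site d → Bool) → ℝ}

theorem ZA_pos (Λ : Finset (Site d)) (ω : Site d → Bool) : 0 < ZA E Λ ω := by
  unfold ZA
  exact Finset.sum_pos (fun η _ => Real.exp_pos _) Finset.univ_nonempty

theorem ZA_congr (Λ : Finset (Site d)) (ω ω' : Site d → Bool)
    (h : ∀ z, z ∉ Λ → ω z = ω' z) : ZA E Λ ω = ZA E Λ ω' := by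
  unfold ZA
  apply Finset.sum_congr rfl
  intro η _
  rw [Basic.glue_congr η ω ω' h]

theorem gA_congr_out (Λ : Finset (Site d)) (ω ω' : Site d → Bool)
    (f : (Site d → Bool) → ℝ) (h : ∀ z, z ∉ Λ → ω z = ω' z) : gA E Λ ω f = gA E Λ ω' f := by
  unfold gA
  rw [ZA_congr Λ ω ω' h]
  congr 1
  apply Finset.sum_congr rfl
  intro η _
  rw [Basic.glue_congr η ω ω' h]

theorem gA_congr (Λ : Finset (Site d)) (ω : Site d → Bool)
    (f f' : (Site d → Bool) → ℝ) (h : ∀ η : Λ → Bool, f (glue Λ η ω) = f' (glue Λ η ω)) :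
    gA E Λ ω f = gA E Λ ω f' := by
  unfold gA
  congr 1
  apply Finset.sum_congr rfl
  intro η _
  rw [h η]

theorem gA_const (Λ : Finset (Site d)) (ω : Site d → Bool) (c : ℝ) :
    gA E Λ ω (fun _ => c) = c := by
  unfold gA
  rw [← Finset.sum_mul]
  exact mul_div_cancel_left₀ c (ZA_pos Λ ω).ne'

theorem gA_mono (Λ : Finset (Site d)) (ω : Site d → Bool)
    (f f' : (Site d → Bool) → ℝ) (h : ∀ η : Λ → Bool, f (glue Λ η ω) ≤ f' (glue Λ η ω)) :
    gA E Λ ω f ≤ gA E Λ ω f' := by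
  unfold gA
  apply div_le_div_of_nonneg_right _ (ZA_pos Λ ω).le
  apply Finset.sum_le_sum
  intro η _
  exact mul_le_mul_of_nonneg_left (h η) (Real.exp_pos _).le

theorem gA_lin (Λ : Finset (Site d)) (ω : Site d → Bool)
    (f f' : (Site d → Bool) → ℝ) (c c' : ℝ) :
    gA E Λ ω (fun σ => c * f σ + c' * f' σ) = c * gA E Λ ω f + c' * gA E Λ ω f' := by
  unfold gA
  rw [← mul_div_assoc, ← mul_div_assoc, ← add_div, Finset.mul_sum, Finset.mul_sum,
    ← Finset.sum_add_distrib]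
  congr 1
  apply Finset.sum_congr rfl
  intro η _
  ring

theorem gA_cons (hE : Nice E) {Λ Λ' : Finset (Site d)} (hsub : Λ' ⊆ Λ) (ω : Site d → Bool)
    (f : (Site d → Bool) → ℝ) :
    gA E Λ ω f = gA E Λ ω (fun τ => gA E Λ' τ f) := by
  have key : ∑ η : Λ → Bool, Real.exp (E Λ (glue Λ η ω)) * f (glue Λ η ω) =
      ∑ η : Λ → Bool, Real.exp (E Λ (glue Λ η ω)) * gA E Λ' (glue Λ η ω) f := by
    symm
    let H : (Λ → Bool) × (Λ' → Bool) → ℝ := fun p =>
      Real.exp (E Λ (glue Λ p.1 ω)) *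
        (Real.exp (E Λ' (glue Λ' p.2 (glue Λ p.1 ω))) * f (glue Λ' p.2 (glue Λ p.1 ω))) /
          ZA E Λ' (glue Λ p.1 ω)
    have h1 : ∑ η : Λ → Bool, Real.exp (E Λ (glue Λ η ω)) * gA E Λ' (glue Λ η ω) f =
        ∑ p : (Λ → Bool) × (Λ' → Bool), H p := by
      rw [Fintype.sum_prod_type]
      apply Finset.sum_congr rfl
      intro η _
      show Real.exp (E Λ (glue Λ η ω)) * ((∑ η' : Λ' → Bool, _) / _) = _
      rw [← mul_div_assoc, Finset.mul_sum, Finset.sum_div]
    rw [h1, ← Equiv.sum_comp (Basic.sw hsub) H, Fintype.sum_prod_type]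
    apply Finset.sum_congr rfl
    intro η _
    have h2 : ∀ η' : Λ' → Bool, H (Basic.sw hsub (η, η')) =
        Real.exp (E Λ (glue Λ η ω)) * f (glue Λ η ω) / ZA E Λ' (glue Λ η ω) *
          Real.exp (E Λ' (glue Λ' η' (glue Λ η ω))) := by
      intro η'
      show Real.exp (E Λ (glue Λ (Basic.md η η') ω)) *
        (Real.exp (E Λ' (glue Λ' (Basic.rs hsub η) (glue Λ (Basic.md η η') ω))) *
          f (glue Λ' (Basic.rs hsub η) (glue Λ (Basic.md η η') ω))) /
          ZA E Λ' (glue Λ (Basic.md η η') ω) = _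
      rw [Basic.glue_rs, Basic.glue_md hsub]
      have ho : ∀ z, z ∉ Λ' → glue Λ' η' (glue Λ η ω) z = glue Λ η ω z :=
        fun z hz => Basic.glue_not_mem _ _ hz
      rw [ZA_congr Λ' _ _ ho]
      have h3 := hE.diff Λ' Λ hsub _ _ ho
      have h4 : Real.exp (E Λ (glue Λ' η' (glue Λ η ω))) *
          Real.exp (E Λ' (glue Λ η ω)) =
          Real.exp (E Λ (glue Λ η ω)) *
            Real.exp (E Λ' (glue Λ' η' (glue Λ η ω))) := by
        rw [← Real.exp_add, ← Real.exp_add]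
        congr 1
        linear_combination h3
      rw [← mul_assoc, h4]
      ring
    rw [Finset.sum_congr rfl (fun η' _ => h2 η'), ← Finset.mul_sum]
    exact div_mul_cancel₀ _ (ZA_pos Λ' _).ne'
  show (∑ η : Λ → Bool, _) / _ = (∑ η : Λ → Bool, _) / _
  rw [key]

theorem gA_cond (hE : Nice E) (Λ : Finset (Site d)) (ω : Site d → Bool) (x : Site d)
    (f : (Site d → Bool) → ℝ) :
    gA E Λ ω f = gA E Λ ω (ind x) * gA E (Λ.erase x) (Function.update ω x true) f
        + (1 - gA E Λ ω (ind x)) * gA E (Λ.erase x) (Function.update ω x false) f := by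
  rw [gA_cons hE (Finset.erase_subset x Λ) ω f]
  set T := gA E (Λ.erase x) (Function.update ω x true) f with hT
  set F := gA E (Λ.erase x) (Function.update ω x false) f with hF
  have h1 : gA E Λ ω (fun τ => gA E (Λ.erase x) τ f) =
      gA E Λ ω (fun σ => (T - F) * ind x σ + F * (fun _ => 1) σ) := by
    apply gA_congr
    intro η
    have h2 : gA E (Λ.erase x) (glue Λ η ω) f =
        gA E (Λ.erase x) (Function.update ω x (glue Λ η ω x)) f := by
      apply gA_congr_out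
      intro z hz
      by_cases hzx : z = x
      · rw [hzx, Function.update_self]
      · rw [Function.update_of_ne hzx]
        apply Basic.glue_not_mem
        intro h
        exact hz (Finset.mem_erase.mpr ⟨hzx, h⟩)
    rw [h2]
    unfold ind
    cases hs : glue Λ η ω x with
    | true =>
      rw [← hT]
      simp
    | false =>
      rw [← hF]
      simp
  rw [h1, gA_lin, gA_const]
  ring

theorem gA_local (hE : Nice E) (Λ : Finset (Site d)) (ω ω' : Site d → Bool)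
    (f : (Site d → Bool) → ℝ)
    (h : ∀ y, y ∉ Λ → (∃ x ∈ Λ, (lat d).Adj x y) → ω y = ω' y)
    (hf : ∀ η : Λ → Bool, f (glue Λ η ω) = f (glue Λ η ω')) :
    gA E Λ ω f = gA E Λ ω' f := by
  have hh : ∀ η : Λ → Bool, E Λ (glue Λ η ω) = E Λ (glue Λ η ω') := by
    intro η
    refine hE.loc Λ _ _ (fun x hx => ?_) fun y hy hadj => ?_
    · rw [Basic.glue_mem _ _ hx, Basic.glue_mem _ _ hx]
    · rw [Basic.glue_not_mem _ _ hy, Basic.glue_not_mem _ _ hy, h y hy hadj]
  unfold gA ZA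
  rw [Finset.sum_congr rfl (fun η _ => show Real.exp (E Λ (glue Λ η ω)) =
      Real.exp (E Λ (glue Λ η ω')) by rw [hh η]),
    Finset.sum_congr rfl (fun η _ => show Real.exp (E Λ (glue Λ η ω)) * f (glue Λ η ω) =
      Real.exp (E Λ (glue Λ η ω')) * f (glue Λ η ω') by rw [hh η, hf η])]

theorem gA_unit (Λ : Finset (Site d)) (ω : Site d → Bool) (f : (Site d → Bool) → ℝ)
    (hf : Unit01 f) : 0 ≤ gA E Λ ω f ∧ gA E Λ ω f ≤ 1 := by
  constructor
  · have h1 := gA_mono (E := E) Λ ω (fun _ => 0) f (fun η => (hf _).1)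
    rw [gA_const] at h1
    exact h1
  · have h1 := gA_mono (E := E) Λ ω f (fun _ => 1) (fun η => (hf _).2)
    rw [gA_const] at h1
    exact h1

/-- all the properties together -/
theorem basicA (hE : Nice E) (Λ : Finset (Site d)) (ω : Site d → Bool) :
    (∀ f, Unit01 f → 0 ≤ gA E Λ ω f ∧ gA E Λ ω f ≤ 1) ∧
    (∀ c : ℝ, gA E Λ ω (fun _ => c) = c) ∧
    (∀ f f' : (Site d → Bool) → ℝ, (∀ η : Λ → Bool, f (glue Λ η ω) ≤ f' (glue Λ η ω)) →
      gA E Λ ω f ≤ gA E Λ ω f') ∧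
    (∀ x ∈ Λ, ∀ f : (Site d → Bool) → ℝ,
      gA E Λ ω f = gA E Λ ω (ind x) * gA E (Λ.erase x) (Function.update ω x true) f
        + (1 - gA E Λ ω (ind x)) * gA E (Λ.erase x) (Function.update ω x false) f) ∧
    (∀ Λ' ⊆ Λ, ∀ f : (Site d → Bool) → ℝ,
      gA E Λ ω f = gA E Λ ω (fun τ => gA E Λ' τ f)) ∧
    (∀ (ω' : Site d → Bool) (f : (Site d → Bool) → ℝ),
      (∀ y, y ∉ Λ → (∃ x ∈ Λ, (lat d).Adj x y) → ω y = ω' y) →
      (∀ η : Λ → Bool, f (glue Λ η ω) = f (glue Λ η ω')) →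
      gA E Λ ω f = gA E Λ ω' f) :=
  ⟨fun f hf => gA_unit Λ ω f hf, gA_const Λ ω, gA_mono Λ ω,
    fun x _ f => gA_cond hE Λ ω x f, fun _ h f => gA_cons hE h ω f,
    fun ω' f h hf => gA_local hE Λ ω ω' f h hf⟩

end Pool.Agent.U475.EA
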